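import Pool.Agent.H891R3.Diam2d

set_option autoImplicit false

open Filter Topology

namespace Pool.Agent.Results.MP_5980c2_co.NoLimitThreeFifths

/-- `Adm G d k`: the graph `G` has diameter at most `d` and maximum degree at most `k`. -/
def Adm {V : Type} (G : SimpleGraph V) (d : ℕ) (k : ℝ) : Prop :=
  (∀ u v : V, G.edist u v ≤ d) ∧ ∀ v : V, ((G.neighborSet v).ncard : ℝ) ≤ k

/-- The set of sizes (numbers of edges) of the graphs of order `n` with diameter at most `d` and
maximum degree at most `k`. -/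
def sizes (d n : ℕ) (k : ℝ) : Set ℕ :=
  {m | ∃ (V : Type) (_ : Finite V) (G : SimpleGraph V),
    Nat.card V = n ∧ Adm G d k ∧ G.edgeSet.ncard = m}

/-- `e d n k` is the minimum size of a graph of order `n` with diameter at most `d` and maximum
degree at most `k`. -/
noncomputable def e (d n : ℕ) (k : ℝ) : ℕ := sInf (sizes d n k)

/-- Graphs as required exist for all `n ≥ 5`: the balanced complete bipartite graph. -/
lemma nonempty_sizes {n : ℕ} (hn : 5 ≤ n) : (sizes 2 n ((3 / 5 : ℝ) * n)).Nonempty := by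
  refine ⟨(completeBipartiteGraph (Fin (n / 2)) (Fin (n - n / 2))).edgeSet.ncard,
    Fin (n / 2) ⊕ Fin (n - n / 2), inferInstance,
    completeBipartiteGraph (Fin (n / 2)) (Fin (n - n / 2)), ?_, ⟨?_, ?_⟩, rfl⟩
  · rw [Nat.card_eq_fintype_card]
    simp
    omega
  · have h0 : 0 < n / 2 := by omega
    have h1 : 0 < n - n / 2 := by omega
    apply Pool.Agent.H891R3.Diam2.edist_le_two_of
    rintro (u | u) (v | v)
    · right; right
      exact ⟨Sum.inr ⟨0, h1⟩, by simp, by simp⟩
    · right; left; simp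
    · right; left; simp
    · right; right
      exact ⟨Sum.inl ⟨0, h0⟩, by simp, by simp⟩
  · have hb : ∀ v : Fin (n / 2) ⊕ Fin (n - n / 2),
        ((completeBipartiteGraph (Fin (n / 2)) (Fin (n - n / 2))).neighborSet v).ncard
          ≤ n - n / 2 := by
      rintro (u | u)
      · refine (Pool.Agent.H891R3.Diam2.ncard_le_of_range (α := Fin (n - n / 2)) _
          (fun z => Sum.inr z) ?_).trans (by simp)
        rintro (x | x) h
        · simp at h
        · exact ⟨x, rfl⟩
      · refine (Pool.Agent.H891R3.Diam2.ncard_le_of_range (α := Fin (n / 2)) _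
          (fun z => Sum.inl z) ?_).trans (by simp; omega)
        rintro (x | x) h
        · exact ⟨x, rfl⟩
        · simp at h
    intro v
    have h1 := hb v
    have h2 : 5 * (n - n / 2) ≤ 3 * n := by omega
    have h3 : (5 : ℝ) * ((n - n / 2 : ℕ) : ℝ) ≤ 3 * n := by exact_mod_cast h2
    have h4 : (((completeBipartiteGraph (Fin (n / 2)) (Fin (n - n / 2))).neighborSet v).ncard : ℝ)
        ≤ ((n - n / 2 : ℕ) : ℝ) := by exact_mod_cast h1
    linarith

/-- Upper bound for `n = 5 (k + 1)`. -/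
lemma upper (k : ℕ) : e 2 (5 * k + 5) ((3 / 5 : ℝ) * ((5 * k + 5 : ℕ) : ℝ)) ≤ 12 * k + 6 := by
  refine (Nat.sInf_le ?_).trans (Pool.Agent.H891R3.Diam2.cG_edges k)
  refine ⟨Pool.Agent.H891R3.Diam2.CV k, inferInstance, Pool.Agent.H891R3.Diam2.cG k,
    Pool.Agent.H891R3.Diam2.cG_card k, ⟨?_, ?_⟩, rfl⟩
  · exact Pool.Agent.H891R3.Diam2.edist_le_two_of (Pool.Agent.H891R3.Diam2.cG_diam k)
  · intro v
    have h := Pool.Agent.H891R3.Diam2.cG_deg k v
    have h2 : (((Pool.Agent.H891R3.Diam2.cG k).neighborSet v).ncard : ℝ) ≤ 3 * k + 3 := by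
      exact_mod_cast h
    push_cast
    linarith

/-- Lower bound for `n = 5 m + 3`. -/
lemma lower (m : ℕ) (hm : 10 ^ 9 ≤ m) :
    241 * (5 * m + 3) < 100 * e 2 (5 * m + 3) ((3 / 5 : ℝ) * ((5 * m + 3 : ℕ) : ℝ)) := by
  have hne := nonempty_sizes (n := 5 * m + 3) (by omega)
  obtain ⟨V, hV, G, hcard, ⟨hdiam, hdeg⟩, hedge⟩ := Nat.sInf_mem hne
  change G.edgeSet.ncard = e 2 (5 * m + 3) ((3 / 5 : ℝ) * ((5 * m + 3 : ℕ) : ℝ)) at hedge
  classical
  have : Fintype V := Fintype.ofFinite V
  by_contra hcon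
  push Not at hcon
  have hG : Pool.Agent.H891R3.Diam2.Good G (5 * m + 3) := by
    refine ⟨?_, ?_, ?_, ?_, by omega⟩
    · rw [← hcard, Nat.card_eq_fintype_card]
    · intro u v
      exact Pool.Agent.H891R3.Diam2.of_edist_le_two (hdiam u v)
    · intro v
      have h1 := hdeg v
      have h2 : (G.neighborSet v).ncard = G.degree v := by
        rw [Set.ncard_eq_toFinset_card']
        rfl
      rw [h2] at h1
      have h3 : (5 : ℝ) * (G.degree v : ℝ) ≤ 3 * ((5 * m + 3 : ℕ) : ℝ) := by linarith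
      exact_mod_cast h3
    · rw [G.sum_degrees_eq_twice_card_edges]
      have h2 : G.edgeSet.ncard = G.edgeFinset.card := by
        rw [Set.ncard_eq_toFinset_card']
        rfl
      rw [h2] at hedge
      rw [← hedge] at hcon
      omega
  exact Pool.Agent.H891R3.Diam2.no_good hG rfl

/-- **Disproof.** For `c = 3 / 5` graphs of order `n`, diameter at most two and maximum degree at
most `c n` exist for all large `n`, but `e_2(n, c n) / n` has no limit (finite or infinite). -/
theorem result :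
    (∀ᶠ n : ℕ in atTop, (sizes 2 n ((3 / 5 : ℝ) * n)).Nonempty) ∧
    ¬ ∃ L : EReal, Tendsto
      (fun n : ℕ => (((e 2 n ((3 / 5 : ℝ) * n) : ℝ) / (n : ℝ) : ℝ) : EReal)) atTop (𝓝 L) := by
  refine ⟨eventually_atTop.2 ⟨5, fun n hn => nonempty_sizes hn⟩, ?_⟩
  rintro ⟨L, hL⟩
  have h1 : L ≤ ((12 / 5 : ℝ) : EReal) := by
    have hsub : Tendsto (fun k : ℕ => 5 * k + 5) atTop atTop :=
      tendsto_atTop_mono (fun k => show k ≤ 5 * k + 5 by omega) tendsto_id
    refine le_of_tendsto (hL.comp hsub) (Eventually.of_forall fun k => ?_)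
    simp only [Function.comp]
    rw [EReal.coe_le_coe_iff]
    have h := upper k
    have h' : (e 2 (5 * k + 5) ((3 / 5 : ℝ) * ((5 * k + 5 : ℕ) : ℝ)) : ℝ) ≤ 12 * k + 6 := by
      exact_mod_cast h
    rw [div_le_iff₀ (by positivity)]
    push_cast at h' ⊢
    linarith
  have h2 : ((241 / 100 : ℝ) : EReal) ≤ L := by
    have hsub : Tendsto (fun k : ℕ => 5 * k + 3) atTop atTop :=
      tendsto_atTop_mono (fun k => show k ≤ 5 * k + 3 by omega) tendsto_id
    refine ge_of_tendsto (hL.comp hsub) (eventually_atTop.2 ⟨10 ^ 9, fun m hm => ?_⟩)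
    simp only [Function.comp]
    rw [EReal.coe_le_coe_iff]
    have h := lower m hm
    have h' : (241 : ℝ) * (5 * m + 3)
        < 100 * (e 2 (5 * m + 3) ((3 / 5 : ℝ) * ((5 * m + 3 : ℕ) : ℝ)) : ℝ) := by
      exact_mod_cast h
    rw [le_div_iff₀ (by positivity)]
    push_cast at h' ⊢
    linarith
  have h3 := h2.trans h1
  rw [EReal.coe_le_coe_iff] at h3
  norm_num at h3

end Pool.Agent.Results.MP_5980c2_co.NoLimitThreeFifths
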